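import Pool.Agent.Lib.MP_e0f6ac_lc.All.Atom
import Pool.Agent.Lib.MP_e0f6ac_lc.All.Kill
import Pool.Agent.Lib.MP_e0f6ac_lc.Cohen
import Pool.Agent.Lib.MP_e0f6ac_lc.Proper

/-!
Only trivial forcings preserve winning strategies of II in the `k`-Rothberger, `k`-Menger and
Menger games: the least possible Boolean value is the join of the atoms, and some nontrivial
strongly proper algebra has no atoms.
-/

open Pool.Agent.Lib.MP_e0f6ac_lc

theorem Pool.Agent.Results.MP_e0f6ac_lc.EveryForcing.result (i : Fin 3) :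
    (∀ (B : Type) [CompleteBooleanAlgebra B],
      (∀ X τ : ZFSet.{0}, ground.game X τ i →
        sSup {a : B | IsAtom a} ≤ (extension B).game (check X.out) (check τ.out) i) ∧
      ∃ X τ : ZFSet.{0}, IsTop X τ ∧ ¬ ground.cpt X τ X ∧ ground.game X τ i ∧
        (extension B).game (check X.out) (check τ.out) i = sSup {a : B | IsAtom a}) ∧
    ∃ (B : Type) (_ : CompleteBooleanAlgebra B),
      Nontrivial B ∧ StronglyProper B ∧ sSup {a : B | IsAtom a} = ⊥ := by
  refine ⟨fun B _ => ?_, Cohen, inferInstance, inferInstance, ?_, ?_⟩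
  · have h : ∀ X τ : ZFSet.{0}, ground.game X τ i →
        sSup {a : B | IsAtom a} ≤ (extension B).game (check X.out) (check τ.out) i :=
      fun X τ hg => sSup_le fun a ha => (tGame ha X τ i).mpr hg
    refine ⟨h, sX (Cube (B × Nd B)), sT (Cube (B × Nd B)), isTop_s, cube_not_cpt, cube_game i,
      le_antisymm ?_ (h _ _ (cube_game i))⟩
    exact disjoint_compl_left_iff.mp
      (disjoint_iff_inf_le.mpr ((goodExt B).kill_game split_of_le i))
  · obtain ⟨D, hD⟩ := cohen_dense
    exact stronglyProper_of_dense D hD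
  · obtain ⟨g, hg⟩ := cohen_generic
    refine sSup_eq_bot.mpr fun a ha => ?_
    obtain ⟨n, _, h1, h2⟩ := hg a ha.1 0
    rcases ha.le_iff.mp (inf_le_left : a ⊓ g n ≤ a) with e | e
    · exact absurd e h1
    · refine absurd ?_ h2
      rw [← e, inf_assoc, inf_compl_eq_bot, inf_bot_eq]
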